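import Pool.Agent.H78.KP.Stmts

/-!
# Board kp, block NSF

The bound for the pairing of the position with a vector field: the recursion in the convexity
parameter, solved exactly.
-/

set_option autoImplicit false

open MeasureTheory Set Filter Topology
open scoped ContDiff

namespace Pool.Agent.H33.KP

open Pool.Agent.H84 Pool.Agent.H84.Sym Pool.Agent.H84.Sym.P2x Pool.Agent.H19.KL
open Pool.Agent.H73.KG Pool.Agent.H20.KH Pool.Agent.H78.KP

section nsf

variable {E : Type} [NormedAddCommGroup E] [InnerProductSpace ℝ E]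
    [FiniteDimensional ℝ E] [MeasurableSpace E] [BorelSpace E]
variable {ι : Type} [Fintype ι]

theorem nsp_lim {α : Type} {l : Filter α} [l.NeBot] (b : OrthonormalBasis ι ℝ E)
    (F : ι → E → ℝ) (Ψ : E → ℝ) (t c ε : ℝ) (cn εn : α → ℝ)
    (hc : Tendsto cn l (𝓝 c)) (hε : Tendsto εn l (𝓝 ε))
    (h : ∀ᶠ n in l, NSP b F Ψ t (cn n) (εn n)) : NSP b F Ψ t c ε := by
  intro U hU O hO
  refine ge_of_tendsto ((hc.mul_const _).add hε) ?_
  filter_upwards [h] with n hn
  exact hn U hU O hO

theorem nsp_step (hNSB : NSBStmt E) (hNSS : NSSStmt E) (b : OrthonormalBasis ι ℝ E)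
    (F : ι → E → ℝ) (Ψ : E → ℝ) (hND : ND b F Ψ) (t h c ε : ℝ) (hh : 0 < h) (ht : h < t)
    (hc : 0 ≤ c) (hε : 0 ≤ ε) (hP : NSP b F Ψ (t + h) c ε) :
    NSP b F Ψ t (c / (1 - h / t)) (ε / (1 - h / t)) := by
  have ht0 : 0 < t := hh.trans ht
  obtain ⟨B, hB0, hB⟩ := hNSB ι b F Ψ hND t ht0
  set q : ℝ := h / t with hq
  have hq0 : 0 ≤ q := by positivity
  have hq1 : q < 1 := by rw [hq, div_lt_one ht0]; exact ht
  have h1q : 1 - q ≠ 0 := by
    have : 0 < 1 - q := by linarith
    exact this.ne'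
  have key : ∀ n : ℕ, NSP b F Ψ t (c * ((1 - q ^ n) / (1 - q)))
      (q ^ n * B + ε * ((1 - q ^ n) / (1 - q))) := by
    intro n
    induction n with
    | zero => simpa using hB
    | succ n ih =>
      have hqn : q ^ n ≤ 1 := pow_le_one₀ hq0 hq1.le
      have hpos : 0 ≤ (1 - q ^ n) / (1 - q) := div_nonneg (by linarith) (by linarith)
      have := hNSS ι b F Ψ hND t h _ _ c ε ht0 hh (mul_nonneg hc hpos)
        (add_nonneg (mul_nonneg (pow_nonneg hq0 n) hB0) (mul_nonneg hε hpos)) hc hε ih hP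
      have e1 : h / t * (c * ((1 - q ^ n) / (1 - q))) + c =
          c * ((1 - q ^ (n + 1)) / (1 - q)) := by
        rw [← hq]; field_simp; ring
      have e2 : h / t * (q ^ n * B + ε * ((1 - q ^ n) / (1 - q))) + ε =
          q ^ (n + 1) * B + ε * ((1 - q ^ (n + 1)) / (1 - q)) := by
        rw [← hq]; field_simp; ring
      rw [e1, e2] at this
      exact this
  have hqt : Tendsto (fun n : ℕ => q ^ n) atTop (𝓝 0) :=
    tendsto_pow_atTop_nhds_zero_of_lt_one hq0 hq1
  have hg : Tendsto (fun n : ℕ => (1 - q ^ n) / (1 - q)) atTop (𝓝 (1 / (1 - q))) := by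
    have := (hqt.const_sub 1).div_const (1 - q)
    simpa using this
  refine nsp_lim (l := atTop) b F Ψ t _ _ _ _ ?_ ?_ (Eventually.of_forall key)
  · have := hg.const_mul c
    rw [mul_one_div] at this
    exact this
  · have := (hqt.mul_const B).add (hg.const_mul ε)
    rw [mul_one_div, zero_mul, zero_add] at this
    exact this

theorem nsp_desc (hNSB : NSBStmt E) (hNSS : NSSStmt E) (b : OrthonormalBasis ι ℝ E)
    (F : ι → E → ℝ) (Ψ : E → ℝ) (hND : ND b F Ψ) (h : ℝ) (hh : 0 < h) (J : ℕ) :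
    ∀ t c ε : ℝ, h < t → 0 ≤ c → 0 ≤ ε → NSP b F Ψ (t + J * h) c ε →
      NSP b F Ψ t (c * ((t + J * h - h) / (t - h))) (ε * ((t + J * h - h) / (t - h))) := by
  induction J with
  | zero =>
    intro t c ε ht hc hε hP
    have h1 : t - h ≠ 0 := (sub_pos.2 ht).ne'
    have e : (t + ((0 : ℕ) : ℝ) * h - h) / (t - h) = 1 := by
      rw [Nat.cast_zero, zero_mul, add_zero, div_self h1]
    rw [e, mul_one, mul_one]
    simpa using hP
  | succ J ih =>
    intro t c ε ht hc hε hP
    have ht0 : 0 < t := hh.trans ht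
    have h1 : t - h ≠ 0 := (sub_pos.2 ht).ne'
    have hJ : (0 : ℝ) ≤ (J : ℝ) * h := mul_nonneg (Nat.cast_nonneg J) hh.le
    have hf : 0 ≤ (t + h + J * h - h) / (t + h - h) :=
      div_nonneg (by linarith) (by linarith)
    have e0 : t + ((J + 1 : ℕ) : ℝ) * h = t + h + J * h := by push_cast; ring
    rw [e0] at hP
    have h2 := ih (t + h) c ε (by linarith) hc hε hP
    have h3 := nsp_step hNSB hNSS b F Ψ hND t h _ _ hh ht (mul_nonneg hc hf)
      (mul_nonneg hε hf) h2
    have e1 : ∀ z : ℝ, z * ((t + h + J * h - h) / (t + h - h)) / (1 - h / t) =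
        z * ((t + ((J + 1 : ℕ) : ℝ) * h - h) / (t - h)) := by
      intro z
      have e3 : t + h - h = t := by ring
      have e4 : t + h + J * h - h = t + J * h := by ring
      have e5 : t + ((J + 1 : ℕ) : ℝ) * h - h = t + J * h := by push_cast; ring
      have e6 : 1 - h / t = (t - h) / t := by field_simp
      rw [e3, e4, e5, e6]
      field_simp
    rw [e1, e1] at h3
    exact h3

theorem nsf_thm (E : Type) [NormedAddCommGroup E] [InnerProductSpace ℝ E]
    [FiniteDimensional ℝ E] [MeasurableSpace E] [BorelSpace E] (hNSA : NSAStmt E)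
    (hNSB : NSBStmt E) (hNSS : NSSStmt E) : NSFStmt E := by
  intro ι _ b F Ψ hND U t hU
  classical
  obtain ⟨⟨_, hpot⟩, -⟩ := id hU
  have ht : 0 < t := hpot.pos
  obtain ⟨C, hC0, hC⟩ := hNSA ι b F Ψ hND
  have hA : ∀ h : ℝ, 0 < h → h < t → NSP b F Ψ t (1 / (t - h)) 0 := by
    intro h hh hht
    have hTt : Tendsto (fun J : ℕ => t + (J : ℝ) * h) atTop atTop :=
      tendsto_atTop_add_const_left _ _ (tendsto_natCast_atTop_atTop.atTop_mul_const hh)
    have h1 : t - h ≠ 0 := (sub_pos.2 hht).ne'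
    have hinv : Tendsto (fun J : ℕ => 1 / (t + (J : ℝ) * h)) atTop (𝓝 0) := by
      have := tendsto_inv_atTop_zero.comp hTt
      simpa [one_div, Function.comp_def] using this
    have hsq : Tendsto (fun J : ℕ => 1 / Real.sqrt (t + (J : ℝ) * h)) atTop (𝓝 0) := by
      have := tendsto_inv_atTop_zero.comp (Real.tendsto_sqrt_atTop.comp hTt)
      simpa [one_div, Function.comp_def] using this
    have hr : Tendsto (fun J : ℕ => 1 / (t + (J : ℝ) * h) * ((t + J * h - h) / (t - h))) atTop
        (𝓝 (1 / (t - h))) := by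
      have h2 : Tendsto (fun J : ℕ => (1 - h * (1 / (t + (J : ℝ) * h))) / (t - h)) atTop
          (𝓝 ((1 - h * 0) / (t - h))) := ((hinv.const_mul h).const_sub 1).div_const _
      rw [mul_zero, sub_zero] at h2
      refine h2.congr fun J => ?_
      have hpos : 0 < t + (J : ℝ) * h := by positivity
      field_simp
    refine nsp_lim (l := atTop) b F Ψ t _ _
      (fun J : ℕ => 1 / (t + (J : ℝ) * h) * ((t + J * h - h) / (t - h)))
      (fun J : ℕ => C * (1 / (t + (J : ℝ) * h)) * (1 / Real.sqrt (t + (J : ℝ) * h)) *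
        ((t + J * h - h) / (t - h))) hr ?_ ?_
    · have h3 := (hr.mul hsq).const_mul C
      rw [mul_zero, mul_zero] at h3
      refine h3.congr fun J => ?_
      ring
    · filter_upwards [hTt.eventually_ge_atTop 1] with J hJ
      have hpos : 0 < t + (J : ℝ) * h := by positivity
      exact nsp_desc hNSB hNSS b F Ψ hND h hh J t _ _ hht (by positivity) (by positivity)
        (hC _ hJ)
  have hB : NSP b F Ψ t (1 / t) 0 := by
    have hlim : Tendsto (fun h : ℝ => 1 / (t - h)) (𝓝[>] 0) (𝓝 (1 / t)) := by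
      have : ContinuousAt (fun h : ℝ => 1 / (t - h)) 0 := by
        refine ContinuousAt.div continuousAt_const (by fun_prop) ?_
        simpa using ht.ne'
      have h2 := this.tendsto
      simp only [sub_zero] at h2
      exact h2.mono_left nhdsWithin_le_nhds
    refine nsp_lim (l := 𝓝[>] (0 : ℝ)) b F Ψ t _ _ _ (fun _ => 0) hlim tendsto_const_nhds ?_
    filter_upwards [Ioo_mem_nhdsGT ht] with h hh
    exact hA h hh.1 hh.2
  have hCT : CT (1 : Matrix ι ι ℝ) := by
    intro x y
    have : ∑ k, ∑ l, (1 : Matrix ι ι ℝ) k l * (x k * y l) = ∑ k, x k * y k := by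
      refine Finset.sum_congr rfl fun k _ => ?_
      simp [Matrix.one_apply]
    rw [this]
    exact Finset.sum_mul_sq_le_sq_mul_sq _ _ _
  have := hB U hU 1 hCT
  rw [add_zero] at this
  refine le_trans (le_of_eq ?_) this
  refine Finset.sum_congr rfl fun k _ => ?_
  congr 1
  funext x
  simp [Matrix.one_apply]

end nsf

end Pool.Agent.H33.KP
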