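import Pool.Agent.H33.KP.WHN

/-!
# Board kp, block TH5

The bound for `GB` in terms of the dimension.
-/

set_option autoImplicit false
set_option linter.unusedSectionVars false

open MeasureTheory Set Filter Topology
open scoped ContDiff

namespace Pool.Agent.H33.KP

open Pool.Agent.H84 Pool.Agent.H84.Sym Pool.Agent.H84.Sym.P2x Pool.Agent.H19.KL
open Pool.Agent.H73.KG Pool.Agent.H20.KH Pool.Agent.H78.KP

section

variable {E : Type} [NormedAddCommGroup E] [InnerProductSpace ℝ E]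
    [FiniteDimensional ℝ E] [MeasurableSpace E] [BorelSpace E]

theorem wd_nonneg {ι : Type} [Fintype ι] [DecidableEq ι] {U : E → ℝ} {t : ℝ} (hU : PP U t)
    (b : OrthonormalBasis ι ℝ E) (f : E → ℝ) : 0 ≤ WD b (cm b U + 1) U f := by
  obtain ⟨⟨C, hP⟩, hp⟩ := hU
  unfold WD
  refine integral_nonneg fun x => ?_
  show (0 : ℝ) ≤ ∑ i, ∑ j, (cm b U + 1) i j * (D (b i) f x * D (b j) f x)
  rw [quad_basis hP b]
  have := BAS_nonneg hP hp (BAS_li (gr f x))
  positivity

theorem GB.mono {t g g' : ℝ} (h : GB E t g) (hg : g ≤ g') : GB E t g' := by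
  intro U hU ι _ _ b f hf hfc
  exact (h U hU ι b f hf hfc).trans (mul_le_mul_of_nonneg_right hg (wd_nonneg hU b f))

end

theorem L1_ge (n : ℕ) : Real.exp 1 ≤ L1 n := by
  have h1 : Real.exp 1 ≤ Real.log 16 := by
    have h2 : Real.log 16 = 4 * Real.log 2 := by
      rw [show (16 : ℝ) = 2 ^ 4 by norm_num, Real.log_pow]
      norm_num
    rw [h2]
    have h3 := Real.log_two_gt_d9
    have h4 := Real.exp_one_lt_d9
    linarith
  refine h1.trans (Real.log_le_log (by norm_num) ?_)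
  have : (0 : ℝ) ≤ n := Nat.cast_nonneg n
  linarith

theorem L2_ge (n : ℕ) : 1 ≤ L2 n := by
  have := Real.log_le_log (Real.exp_pos 1) (L1_ge n)
  rwa [Real.log_exp] at this

theorem th5_thm (hTHD : ∀ (E : Type) [NormedAddCommGroup E] [InnerProductSpace ℝ E]
    [FiniteDimensional ℝ E] [MeasurableSpace E] [BorelSpace E], THDStmt E)
    (hTKL : TKLStmt) : TH5Stmt := by
  intro c hc hc2
  obtain ⟨C1, hC1, hT⟩ := hTKL
  have hlc : 0 ≤ Real.log (1 / c) := by
    refine Real.log_nonneg ?_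
    rw [le_div_iff₀ hc]
    linarith
  set ℓ := Real.log (1 / c) with hℓ
  set C2 : ℝ := C1 * (3 + ℓ) with hC2
  have hC2g : 1 ≤ C2 := by
    rw [hC2]
    nlinarith
  refine ⟨(4 + ℓ) ^ 4 * C2, ?_, ?_⟩
  · have : (1 : ℝ) ≤ (4 + ℓ) ^ 4 := one_le_pow₀ (by linarith)
    nlinarith
  intro E _ _ _ _ _
  set n := Module.finrank ℝ E with hn
  have hL1 := L1_ge n
  have hL2 := L2_ge n
  have he : (2 : ℝ) < Real.exp 1 := by
    have := Real.exp_one_gt_d9
    linarith
  have hL1p : 0 < L1 n := by linarith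
  have hL2p : 0 < L2 n := by linarith
  have hLL : 1 ≤ L1 n * L2 n := by nlinarith
  set s : ℝ := c / (L1 n * L2 n) with hs
  have hs0 : 0 < s := by positivity
  have hs1 : s ≤ 1 / 2 := by
    rw [hs, div_le_iff₀ (by positivity)]
    nlinarith
  have hlog : Real.log (1 / s) ≤ (2 + ℓ) * L2 n := by
    have e1 : 1 / s = L1 n * L2 n * (1 / c) := by
      rw [hs]
      field_simp
    rw [e1, Real.log_mul (by positivity) (by positivity), Real.log_mul hL1p.ne' hL2p.ne']
    have h2 : Real.log (L1 n) = L2 n := rfl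
    have h3 : Real.log (L2 n) ≤ L2 n := (Real.log_le_sub_one_of_pos hL2p).trans (by linarith)
    rw [h2]
    nlinarith
  have hTK : TK E (s / 2) (C2 * L2 n) := by
    intro U hU hcov θ hθ ι _ b
    refine (hT E s hs0 hs1 U hU hcov θ hθ ι b).trans ?_
    rw [hC2, mul_assoc]
    refine mul_le_mul_of_nonneg_left ?_ (by linarith)
    linarith
  set K : ℝ := Real.sqrt (C2 * L2 n) with hK
  have hK2 : K ^ 2 = C2 * L2 n := Real.sq_sqrt (by positivity)
  have hK1 : 1 ≤ K := by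
    rw [hK, Real.one_le_sqrt]
    nlinarith
  have hTK' : TK E (s / 2) (K ^ 2) := by rw [hK2]; exact hTK
  have hGB := hTHD E (s / 2) K (by positivity) (by linarith) hK1 hTK'
  refine GB.mono hGB ?_
  have hsK : Real.sqrt K ^ 2 = K := Real.sq_sqrt (by linarith)
  have hsK1 : 1 ≤ Real.sqrt K := by rwa [Real.one_le_sqrt]
  have hlog2 : Real.log (1 / (s / 2)) ≤ (3 + ℓ) * L2 n := by
    have e1 : 1 / (s / 2) = 2 * (1 / s) := by field_simp
    rw [e1, Real.log_mul (by norm_num) (by positivity)]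
    have := Real.log_two_lt_d9
    nlinarith
  have h5 : 1 + Real.sqrt K * Real.log (1 / (s / 2)) ≤ (4 + ℓ) * (Real.sqrt K * L2 n) := by
    have h6 : Real.sqrt K * Real.log (1 / (s / 2)) ≤ Real.sqrt K * ((3 + ℓ) * L2 n) :=
      mul_le_mul_of_nonneg_left hlog2 (by linarith)
    have h7 : 1 ≤ Real.sqrt K * L2 n := by nlinarith
    nlinarith
  have h8 : 0 ≤ Real.log (1 / (s / 2)) := by
    refine Real.log_nonneg ?_
    rw [le_div_iff₀ (by positivity)]
    linarith
  have h9 : (0 : ℝ) ≤ 1 + Real.sqrt K * Real.log (1 / (s / 2)) := by positivity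
  calc (1 + Real.sqrt K * Real.log (1 / (s / 2))) ^ 4
      ≤ ((4 + ℓ) * (Real.sqrt K * L2 n)) ^ 4 := pow_le_pow_left₀ h9 h5 4
    _ = (4 + ℓ) ^ 4 * ((Real.sqrt K ^ 2) ^ 2 * L2 n ^ 4) := by ring
    _ = (4 + ℓ) ^ 4 * C2 * L2 n ^ 5 := by rw [hsK, hK2]; ring

end Pool.Agent.H33.KP
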