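import Pool.Agent.H78.KP.Stmts
import Pool.Agent.H2.KG.EIG

/-!
# Board kp, block WHN

Whitening: a measure for which `GB` fails gives a measure with diagonal covariance matrix `1 - R`
for which the Poincaré inequality fails.
-/

set_option autoImplicit false
set_option linter.unusedSectionVars false

open MeasureTheory Set Filter Topology Matrix
open scoped ContDiff

namespace Pool.Agent.H33.KP

open Pool.Agent.H84 Pool.Agent.H84.Sym Pool.Agent.H84.Sym.P2x Pool.Agent.H19.KL
open Pool.Agent.H73.KG Pool.Agent.H20.KH Pool.Agent.H78.KP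

section whn

variable {E : Type} [NormedAddCommGroup E] [InnerProductSpace ℝ E]
    [FiniteDimensional ℝ E] [MeasurableSpace E] [BorelSpace E]
variable {ι : Type} [Fintype ι]

/-- the gradient -/
noncomputable def gr (f : E → ℝ) (x : E) : E :=
  (InnerProductSpace.toDual ℝ E).symm (fderiv ℝ f x)

theorem inner_gr (f : E → ℝ) (x e : E) : inner ℝ (gr f x) e = D e f x := by
  unfold gr D
  rw [InnerProductSpace.toDual_symm_apply]

theorem sum_gr (b : OrthonormalBasis ι ℝ E) (f : E → ℝ) (x : E) :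
    ∑ i, D (b i) f x • b i = gr f x := by
  conv_rhs => rw [← b.sum_repr' (gr f x)]
  refine Finset.sum_congr rfl fun i _ => ?_
  rw [real_inner_comm, inner_gr]

theorem norm_gr (f : E → ℝ) (x : E) : ‖fderiv ℝ f x‖ = ‖gr f x‖ := by
  unfold gr
  rw [LinearIsometryEquiv.norm_map]

theorem sum_sq_gr (b : OrthonormalBasis ι ℝ E) (f : E → ℝ) (x : E) :
    ∑ i, (D (b i) f x) ^ 2 = ‖fderiv ℝ f x‖ ^ 2 := by
  rw [norm_gr, ← b.sum_sq_norm_inner_right (gr f x)]
  refine Finset.sum_congr rfl fun i _ => ?_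
  rw [Real.norm_eq_abs, sq_abs, real_inner_comm, inner_gr]

theorem quad_basis {U : E → ℝ} {t C : ℝ} (hU : Pot U t C) [DecidableEq ι]
    (b : OrthonormalBasis ι ℝ E) (f : E → ℝ) (x : E) :
    ∑ i, ∑ j, (cm b U + 1) i j * (D (b i) f x * D (b j) f x) =
      cv U (li (gr f x)) (li (gr f x)) + ‖fderiv ℝ f x‖ ^ 2 := by
  have h1 := EIG_bil hU b (fun i => D (b i) f x) (fun i => D (b i) f x)
  rw [sum_gr] at h1
  rw [h1, ← sum_sq_gr b, ]
  simp only [dotProduct, mulVec, Matrix.add_apply, add_mul, Finset.sum_add_distrib]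
  congr 1
  · refine Finset.sum_congr rfl fun i _ => ?_
    rw [Finset.mul_sum]
    exact Finset.sum_congr rfl fun j _ => by ring
  · refine Finset.sum_congr rfl fun i _ => ?_
    simp [Matrix.one_apply, sq]

theorem whn_thm (E : Type) [NormedAddCommGroup E] [InnerProductSpace ℝ E]
    [FiniteDimensional ℝ E] [MeasurableSpace E] [BorelSpace E] (hDIA : DIAStmt E) :
    WHNStmt E := by
  intro t g ht hg hGB
  unfold GB at hGB
  push Not at hGB
  obtain ⟨U, hPU, ι, hι, hd, b, f, hf, hfc, hlt⟩ := hGB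
  obtain ⟨⟨C, hU⟩, hprob⟩ := id hPU
  obtain ⟨c, lam, hlam, hcm⟩ := eig_thm E U t hPU ι b
  have hWD : WD b (cm b U + 1) U f = WD c (cm c U + 1) U f := by
    unfold WD
    congr 1
    funext x
    rw [quad_basis hU b, quad_basis hU c]
  have h1l : ∀ i, 1 ≤ 1 + lam i := fun i => by linarith [hlam i]
  have h0l : ∀ i, 0 < 1 + lam i := fun i => by linarith [hlam i]
  set l : ι → ℝ := fun i => Real.sqrt (1 + lam i) with hl
  have hl0 : ∀ i, 0 < l i := fun i => Real.sqrt_pos.2 (h0l i)
  have hlsq : ∀ i, l i ^ 2 = 1 + lam i := fun i => Real.sq_sqrt (h0l i).le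
  obtain ⟨hHess, hPP, hint, hcov, hD, hcd⟩ := hDIA U t hPU ι c l hl0
  have hnorm : ∀ v : E, ‖dl c l v‖ ^ 2 = ∑ i, (1 + lam i) * (inner ℝ (c i) v) ^ 2 := by
    intro v
    rw [← c.sum_sq_norm_inner_right (dl c l v)]
    refine Finset.sum_congr rfl fun i _ => ?_
    have : inner ℝ (c i) (dl c l v) = l i * inner ℝ (c i) v := by
      unfold dl
      rw [inner_sum]
      simp only [real_inner_smul_right]
      rw [Finset.sum_eq_single i]
      · rw [orthonormal_iff_ite.1 c.orthonormal i i, if_pos rfl, mul_one]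
      · intro j _ hj
        rw [orthonormal_iff_ite.1 c.orthonormal i j, if_neg (Ne.symm hj), mul_zero]
      · intro h
        exact absurd (Finset.mem_univ i) h
    rw [Real.norm_eq_abs, sq_abs, this, mul_pow, hlsq]
  have hlow : ∀ x v : E, t * ‖dl c l v‖ ^ 2 ≤ fderiv ℝ (fderiv ℝ U) x (dl c l v) (dl c l v) :=
    fun x v => hU.hess x _
  have hge : ∀ v : E, ‖v‖ ^ 2 ≤ ‖dl c l v‖ ^ 2 := by
    intro v
    rw [hnorm, ← c.sum_sq_norm_inner_right v]
    refine Finset.sum_le_sum fun i _ => ?_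
    rw [Real.norm_eq_abs, sq_abs]
    exact le_mul_of_one_le_left (sq_nonneg _) (h1l i)
  have hPP' : PP (dU c l U) t := hPP t ht fun x v =>
    (mul_le_mul_of_nonneg_left (hge v) ht.le).trans (hlow x v)
  refine ⟨ι, hι, hd, c, fun i => 1 / (1 + lam i), dU c l U, ?_, ?_⟩
  · refine ⟨hPP', fun i => one_div_pos.2 (h0l i), fun i => ?_, ?_, ?_⟩
    · rw [div_le_one (h0l i)]
      exact h1l i
    · ext i j
      rw [hcov, hcm, Matrix.diagonal_apply, Matrix.diagonal_apply]
      split_ifs with h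
      · subst h
        have : l i * l i = 1 + lam i := by rw [← hlsq]; ring
        rw [this]
        have := (h0l i).ne'
        field_simp
        ring
      · rw [zero_div]
    · intro x v
      rw [hHess]
      refine le_trans (le_of_eq ?_) (hlow _ v)
      rw [hnorm]
      congr 1
      refine Finset.sum_congr rfl fun i _ => ?_
      have := (h0l i).ne'
      field_simp
  · intro hG
    obtain ⟨hfd, hfcd⟩ := hcd f hf hfc
    have h1 := hG (fun x => f (dl c l x)) hfd hfcd
    have := hPP'.2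
    have hu : (mu (dU c l U)).real univ = 1 := by simp
    have e1 : ∫ x, (fun x => f (dl c l x)) x ^ 2 ∂(mu (dU c l U)) = ∫ x, f x ^ 2 ∂(mu U) :=
      hint (fun x => f x ^ 2)
    have e2 : ∫ x, (fun x => f (dl c l x)) x ∂(mu (dU c l U)) = ∫ x, f x ∂(mu U) :=
      hint f
    have e3 : ∫ x, ‖fderiv ℝ (fun x => f (dl c l x)) x‖ ^ 2 ∂(mu (dU c l U)) =
        WD c (cm c U + 1) U f := by
      unfold WD
      rw [← hint (fun x => ∑ i, ∑ j, (cm c U + 1) i j * (D (c i) f x * D (c j) f x))]
      congr 1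
      funext x
      rw [← sum_sq_gr c, hcm]
      refine Finset.sum_congr rfl fun i _ => ?_
      rw [hD i f x hf, mul_pow, hlsq, Finset.sum_eq_single i]
      · simp [sq, add_comm]
      · intro j _ hj
        simp [Matrix.diagonal_apply, Matrix.one_apply, Ne.symm hj]
      · intro h
        exact absurd (Finset.mem_univ i) h
    rw [hu, one_mul, one_mul, e1, e2, e3] at h1
    rw [hWD] at hlt
    unfold Pool.Agent.H73.KG.cv at hlt
    have e4 : ∫ x, f x * f x ∂(mu U) = ∫ x, f x ^ 2 ∂(mu U) := by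
      congr 1
      funext x
      ring
    rw [e4] at hlt
    nlinarith [hlt, h1]

end whn

end Pool.Agent.H33.KP
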